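import Pool.Agent.K7.H14.CF.Stm

set_option autoImplicit false

namespace Pool.Agent.K7.H14.CF

lemma descend {K : Type} [CommRing K] (m : Ideal K) (φ : K →+ ZMod 3) (h : ∀ x ∈ m, φ x = 0) :
    ∃ lam : (K ⧸ m) →+ ZMod 3, ∀ x, lam (Ideal.Quotient.mk m x) = φ x := by
  let s : K ⧸ m → K := Function.surjInv (Ideal.Quotient.mk_surjective (I := m))
  have hs : ∀ a, Ideal.Quotient.mk m (s a) = a :=
    Function.surjInv_eq (Ideal.Quotient.mk_surjective (I := m))
  have key : ∀ x y : K, Ideal.Quotient.mk m x = Ideal.Quotient.mk m y → φ x = φ y := by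
    intro x y hxy
    have h1 := h (x - y) (Ideal.Quotient.eq.1 hxy)
    rw [map_sub] at h1
    exact sub_eq_zero.1 h1
  refine ⟨{ toFun := fun a => φ (s a), map_zero' := ?_, map_add' := ?_ }, ?_⟩
  · rw [← map_zero φ]
    exact key _ _ (by rw [hs, map_zero])
  · intro a b
    rw [← map_add φ]
    exact key _ _ (by rw [hs, map_add, hs, hs])
  · intro x
    exact key _ _ (hs _)

lemma z1 : ∀ a b : ZMod 3, a ≠ 0 → b ≠ 0 → 2 * a - b ≠ 0 → a = b := by decide

lemma z2 : ∀ a b : ZMod 3, a ≠ 0 → a - b ≠ 0 → a + b ≠ 0 → b = 0 := by decide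

lemma isUnit_aux {B : Type} [CommRing B] (h3 : (3 : B) = 0) {i t g : B}
    (h1 : (1 - t * i) * g = 1 + t * i) : IsUnit (1 - t * i) := by
  apply IsUnit.of_mul_eq_one ((1 + g) * 2)
  linear_combination 2 * h1 + h3

theorem alg (hFF : StFF) : StAlg := by
  intro B _ _ h3 l i hi G hiG hl hnd B0 hB0 hfin t ht
  by_contra hne
  have hunit : ∀ x ∈ B0, IsUnit (1 - x * i) := by
    intro x hx
    obtain ⟨g, -, hg⟩ := hB0 x hx
    exact isUnit_aux h3 hg
  -- no square-zero elements
  have hsq : ∀ x ∈ B0, x ^ 2 = 0 → x = 0 := by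
    intro x hx hx2
    have key : ∀ y ∈ G, l (x * (y * i)) = 0 := by
      intro y hy
      obtain ⟨g, hgG, hg⟩ := hB0 x hx
      obtain ⟨g', hgG', hg'⟩ := hB0 (-x) (neg_mem hx)
      have e1 : g = 1 - x * i := by
        apply (hunit x hx).mul_left_cancel
        linear_combination hg + (-i ^ 2) * hx2 + (x * i) * h3
      have e2 : g' = 1 + x * i := by
        apply (hunit (-x) (neg_mem hx)).mul_left_cancel
        linear_combination hg' + (-i ^ 2) * hx2 + (-(x * i)) * h3
      have a1 := hl _ (mul_mem hy hgG)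
      have a2 := hl _ (mul_mem hy hgG')
      have b1 : y * g = y - x * (y * i) := by rw [e1]; ring
      have b2 : y * g' = y + x * (y * i) := by rw [e2]; ring
      rw [b1, map_sub] at a1
      rw [b2, map_add] at a2
      exact z2 _ _ (hl y hy) a1 a2
    apply hnd
    intro g hg
    have h4 := key (g * i ^ 3) (mul_mem hg (pow_mem hiG 3))
    have h5 : x * (g * i ^ 3 * i) = x * g := by
      have : i ^ 4 = 1 := by rw [show (4:ℕ) = 2 * 2 by norm_num, pow_mul, hi]; ring
      linear_combination (x * g) * this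
    rwa [h5] at h4
  let K : Subring B := Subring.closure {t}
  have htK : t ∈ K := Subring.subset_closure rfl
  have hKB : K ≤ B0 := Subring.closure_le.2 (by simpa using ht)
  have : Finite K := (hfin t ht).to_subtype
  have hred : IsReduced K := by
    rw [isReduced_iff_pow_one_lt 2 (by norm_num)]
    intro x hx
    apply Subtype.ext
    apply hsq _ (hKB x.2)
    have := congrArg (fun y : K => (y : B)) hx
    simpa using this
  have : IsArtinianRing K := inferInstance
  set d : K := (⟨t, htK⟩ : K) ^ 3 - ⟨t, htK⟩ with hd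
  have hd0 : d ≠ 0 := by
    intro h
    apply hne
    have := congrArg (fun y : K => (y : B)) h
    simp [hd] at this
    exact sub_eq_zero.1 this
  let E := IsArtinianRing.equivPi K
  obtain ⟨m, hm⟩ : ∃ m : MaximalSpectrum K, d ∉ m.asIdeal := by
    by_contra hcon
    push Not at hcon
    apply hd0
    apply E.injective
    rw [map_zero]
    funext m
    exact (Ideal.Quotient.eq_zero_iff_mem).2 (hcon m)
  classical
  let e : K := E.symm (Pi.single m 1)
  have hEe : E e = Pi.single m 1 := E.apply_symm_apply _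
  have hEx : ∀ (x : K) (n : MaximalSpectrum K), E x n = Ideal.Quotient.mk n.asIdeal x := fun _ _ => rfl
  have hem : ∀ x ∈ m.asIdeal, e * x = 0 := by
    intro x hx
    apply E.injective
    rw [map_mul, map_zero, hEe]
    funext n
    rw [Pi.mul_apply]
    by_cases hn : n = m
    · subst hn
      rw [hEx, (Ideal.Quotient.eq_zero_iff_mem).2 hx, mul_zero]; rfl
    · rw [Pi.single_eq_of_ne hn, zero_mul]; rfl
  have hee : e * e = e := by
    apply E.injective
    rw [map_mul, hEe]
    funext n
    rw [Pi.mul_apply]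
    by_cases hn : n = m
    · subst hn; simp
    · rw [Pi.single_eq_of_ne hn, zero_mul]
  have he1 : 1 - e ∈ m.asIdeal := by
    rw [← Ideal.Quotient.eq_zero_iff_mem, ← hEx, map_sub, map_one, hEe]
    simp
  have h1m : (1 : K) ∉ m.asIdeal := fun h => m.isMaximal.ne_top ((Ideal.eq_top_iff_one _).2 h)
  have he0 : e ≠ 0 := by
    intro h
    rw [h, sub_zero] at he1
    exact h1m he1
  have heB0 : (e : B) ≠ 0 := fun h => he0 (Subtype.ext h)
  have heeB : (e : B) * e = e := by
    have := congrArg (fun y : K => (y : B)) hee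
    simpa using this
  have hemB : ∀ x ∈ m.asIdeal, (e : B) * x = 0 := by
    intro x hx
    have := congrArg (fun y : K => (y : B)) (hem x hx)
    simpa using this
  let _ : Field (K ⧸ m.asIdeal) := Ideal.Quotient.field m.asIdeal
  -- `-1` is not a square
  have hns : ¬ IsSquare (-1 : K ⧸ m.asIdeal) := by
    rintro ⟨r, hr⟩
    obtain ⟨s, rfl⟩ := Ideal.Quotient.mk_surjective r
    have hs : s * s + 1 ∈ m.asIdeal := by
      rw [← Ideal.Quotient.eq_zero_iff_mem, map_add, map_mul, map_one, ← hr]; ring
    have h4 := hemB _ hs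
    push_cast at h4
    have hes : (e : B) * s ∈ B0 := mul_mem (hKB e.2) (hKB s.2)
    have u1 := hunit _ hes
    have u2 := hunit _ (neg_mem hes)
    have u3 : IsUnit ((1 : B) - e) := by
      have : (1 : B) - e = (1 - (e : B) * s * i) * (1 - (-((e : B) * s)) * i) := by
        linear_combination (-(1:B)) * h4 + (-(s:B)^2) * heeB + (e * s : B) ^ 2 * hi
      rw [this]; exact u1.mul u2
    apply heB0
    apply u3.mul_left_cancel
    linear_combination (-1 : B) * heeB
  -- the element `y`
  obtain ⟨y, hyG, hy⟩ : ∃ y ∈ G, l (e * y) ≠ 0 := by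
    by_contra hcon
    push Not at hcon
    exact heB0 (hnd _ hcon)
  have hy1 : l (y * (1 - e)) = 0 := by
    have hκ : 2 * (e : B) - 1 ∈ B0 := sub_mem (mul_mem (by simp) (hKB e.2)) (one_mem _)
    obtain ⟨g, hgG, hg⟩ := hB0 _ hκ
    have eg : g = (2 * (e : B) - 1) * i := by
      apply (hunit _ hκ).mul_left_cancel
      linear_combination hg + (2 * (e : B) - 1) ^ 2 * hi - 4 * heeB
    have h5 : l (y * (g * i)) ≠ 0 := hl _ (mul_mem hyG (mul_mem hgG hiG))
    have h6 : y * (g * i) = -(2 * (e * y) - y) := by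
      rw [eg]; linear_combination (y * (2 * (e : B) - 1)) * hi
    rw [h6, map_neg, neg_ne_zero, map_sub, two_mul, map_add, ← two_mul] at h5
    have h7 := z1 _ _ hy (hl y hyG) h5
    have h8 : y * (1 - e) = y - e * y := by ring
    rw [h8, map_sub, h7, sub_self]
  obtain ⟨lam, hlam⟩ := descend m.asIdeal
    ((l.comp (AddMonoidHom.mulLeft (y * (e : B)))).comp K.subtype.toAddMonoidHom) (by
      intro x hx
      change l (y * (e : B) * x) = 0
      rw [mul_assoc, hemB x hx, mul_zero, map_zero])
  obtain ⟨mu, hmu⟩ := descend m.asIdeal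
    ((l.comp (AddMonoidHom.mulLeft (y * (e : B) * i))).comp K.subtype.toAddMonoidHom) (by
      intro x hx
      change l (y * (e : B) * i * x) = 0
      have : y * (e : B) * i * x = y * i * ((e : B) * x) := by ring
      rw [this, hemB x hx, mul_zero, map_zero])
  have hlam' : ∀ x : K, lam (Ideal.Quotient.mk m.asIdeal x) = l (y * (e : B) * x) := fun x => hlam x
  have hmu' : ∀ x : K, mu (Ideal.Quotient.mk m.asIdeal x) = l (y * (e : B) * i * x) := fun x => hmu x
  have h3k : (3 : K ⧸ m.asIdeal) = 0 := by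
    have h3K : ((3 : ℕ) : K) = 0 := Subtype.ext (by
      rw [SubringClass.coe_natCast]
      exact_mod_cast h3)
    have h4 := congrArg (Ideal.Quotient.mk m.asIdeal) h3K
    rw [map_natCast, map_zero] at h4
    exact_mod_cast h4
  have : Finite (K ⧸ m.asIdeal) := Finite.of_surjective _ (Ideal.Quotient.mk_surjective (I := m.asIdeal))
  have hmain : ∀ a b : K ⧸ m.asIdeal, a ^ 2 + b ^ 2 = 1 → lam a + mu b ≠ 0 := by
    intro a b hab
    by_cases ha : 1 + a = 0
    · have ha' : a = -1 := by linear_combination ha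
      have hb : b = 0 := by
        have : b ^ 2 = 0 := by rw [ha'] at hab; linear_combination hab
        exact pow_eq_zero_iff (two_ne_zero) |>.1 this
      rw [ha', hb, map_zero, add_zero, map_neg, neg_ne_zero]
      have h4 := hlam' 1
      rw [map_one] at h4
      rw [h4]
      have : y * (e : B) * ((1 : K) : B) = e * y := by push_cast; ring
      rw [this]; exact hy
    · obtain ⟨α, rfl⟩ := Ideal.Quotient.mk_surjective a
      obtain ⟨β, rfl⟩ := Ideal.Quotient.mk_surjective b
      obtain ⟨γ, hγ⟩ := Ideal.Quotient.mk_surjective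
        (Ideal.Quotient.mk m.asIdeal β / (1 + Ideal.Quotient.mk m.asIdeal α))
      have hc : Ideal.Quotient.mk m.asIdeal γ * (1 + Ideal.Quotient.mk m.asIdeal α) =
          Ideal.Quotient.mk m.asIdeal β := by
        rw [hγ, div_mul_cancel₀ _ ha]
      have hm1 : α + γ * β - 1 ∈ m.asIdeal := by
        rw [← Ideal.Quotient.eq_zero_iff_mem, map_sub, map_add, map_mul, map_one]
        apply mul_left_cancel₀ ha
        linear_combination hab + (Ideal.Quotient.mk m.asIdeal β) * hc
      have hm2 : β - γ * α - γ ∈ m.asIdeal := by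
        rw [← Ideal.Quotient.eq_zero_iff_mem, map_sub, map_sub, map_mul]
        linear_combination (-1 : K ⧸ m.asIdeal) * hc
      have q1 := hemB _ hm1
      have q2 := hemB _ hm2
      push_cast at q1 q2
      have heγ : (e : B) * γ ∈ B0 := mul_mem (hKB e.2) (hKB γ.2)
      obtain ⟨z, hzG, hz⟩ := hB0 _ heγ
      have hz1 : z * (1 - e) = 1 - e := by
        linear_combination (1 - (e : B)) * hz + (-(γ : B) * i * z - (γ : B) * i) * heeB
      have hz2 : z * e = e * (α + β * i) := by
        apply (hunit _ heγ).mul_left_cancel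
        linear_combination (e : B) * hz + ((γ : B) * i + (γ : B) * i * (α + β * i)) * heeB - q1 - i * q2 +
          (e : B) * γ * β * hi
      have h4 := hl _ (mul_mem hyG hzG)
      have h5 : y * z = y * (e : B) * α + y * (e : B) * i * β + y * (1 - e) := by
        linear_combination y * hz1 + y * hz2
      rw [h5, map_add, map_add, hy1, add_zero] at h4
      rw [hlam', hmu']
      exact h4
  have hfin' := hFF (K ⧸ m.asIdeal) h3k hns lam mu hmain
  have h4 := hfin' (Ideal.Quotient.mk m.asIdeal ⟨t, htK⟩)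
  apply hm
  rw [← Ideal.Quotient.eq_zero_iff_mem, hd, map_sub, map_pow, h4, sub_self]

end Pool.Agent.K7.H14.CF
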