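import Pool.Agent.K7.H14.CF.Alg

set_option autoImplicit false

namespace Pool.Agent.K7.H14.CF

open Pool.Agent.Results.MP_8b8716_co.ThreeValue Complex

lemma liftHom {A k : Type*} [CommRing A] [Field k] (ψ : A →+* k) (h3 : (3 : k) = 0)
    (h : ∀ a, ψ a ^ 3 = ψ a) : Nonempty (A →+* ZMod 3) := by
  have : Fact (Nat.Prime 3) := ⟨Nat.prime_three⟩
  have : CharP k 3 := (CharP.charP_iff_prime_eq_zero Nat.prime_three).2 (by exact_mod_cast h3)
  let χ : ZMod 3 →+* k := ZMod.castHom (dvd_refl 3) k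
  have hinj : Function.Injective χ := χ.injective
  have hr : ∀ a, ψ a ∈ χ.range := by
    intro a
    have h1 : ψ a * (ψ a - 1) * (ψ a + 1) = 0 := by linear_combination h a
    rcases mul_eq_zero.1 h1 with h2 | h2
    · rcases mul_eq_zero.1 h2 with h3 | h3
      · exact ⟨0, by rw [h3, map_zero]⟩
      · exact ⟨1, by rw [map_one]; linear_combination -h3⟩
    · exact ⟨-1, by rw [map_neg, map_one]; linear_combination -h2⟩
  let e := RingEquiv.ofBijective χ.rangeRestrict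
    ⟨fun a b hab => hinj (by simpa using congrArg Subtype.val hab), χ.rangeRestrict_surjective⟩
  exact ⟨(e.symm : χ.range →+* ZMod 3).comp (ψ.codRestrict χ.range hr)⟩

/-- the unit circle over `F` in `ℂ` -/
noncomputable def UC (F : IntermediateField ℚ ℝ) : Submonoid ℂ where
  carrier := {z | ∃ e : F × F, e.1 ^ 2 + e.2 ^ 2 = 1 ∧ toC e = z}
  one_mem' := ⟨(1, 0), by simp, by simp [toC]⟩
  mul_mem' := by
    rintro x y ⟨e, he, rfl⟩ ⟨f, hf, rfl⟩
    refine ⟨(e.1 * f.1 - e.2 * f.2, e.1 * f.2 + e.2 * f.1), ?_, ?_⟩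
    · linear_combination (f.1 ^ 2 + f.2 ^ 2) * he + hf
    · have hII : I * I = -1 := I_mul_I
      simp only [toC]
      push_cast
      linear_combination (-((e.2 : ℝ) : ℂ) * ((f.2 : ℝ) : ℂ)) * hII

lemma mem_UC {F : IntermediateField ℚ ℝ} {z : ℂ} :
    z ∈ UC F ↔ ∃ e : F × F, e.1 ^ 2 + e.2 ^ 2 = 1 ∧ toC e = z := Iff.rfl

lemma I_mem_UC (F : IntermediateField ℚ ℝ) : I ∈ UC F := ⟨(0, 1), by simp, by simp [toC]⟩

lemma toC_inj {F : IntermediateField ℚ ℝ} : Function.Injective (toC : F × F → ℂ) := by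
  intro p q h
  have h5 := congrArg Complex.re h
  have h6 := congrArg Complex.im h
  simp [toC] at h5 h6
  exact Prod.ext (by exact_mod_cast h5) (by exact_mod_cast h6)

/-- the point of the unit circle with the parameter `a` and its inverse -/
lemma param {F : IntermediateField ℚ ℝ} (a : F) :
    ∃ u ∈ UC F, ∃ v ∈ UC F, (1 - ((a : ℝ) : ℂ) * I) * u = 1 + ((a : ℝ) : ℂ) * I ∧
      (u + v + 2) * (1 + ((a : ℝ) : ℂ) ^ 2) = 4 ∧
      ∃ b : F, u + v = ((b : ℝ) : ℂ) := by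
  have hpos : (1 + a ^ 2 : F) ≠ 0 := by
    intro h
    have h' : 1 + ((a : ℝ)) ^ 2 = 0 := by exact_mod_cast congrArg (fun x : F => (x : ℝ)) h
    nlinarith [sq_nonneg (a : ℝ)]
  have hposC : (1 + ((a : ℝ) : ℂ) ^ 2 : ℂ) ≠ 0 := by
    intro h
    have h' : 1 + ((a : ℝ)) ^ 2 = 0 := by exact_mod_cast h
    nlinarith [sq_nonneg (a : ℝ)]
  have hII : I * I = -1 := I_mul_I
  have e2 : (((2 : F) : ℝ) : ℂ) = 2 := by norm_cast
  refine ⟨toC ((1 - a ^ 2) / (1 + a ^ 2), 2 * a / (1 + a ^ 2)), ⟨_, ?_, rfl⟩,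
    toC ((1 - a ^ 2) / (1 + a ^ 2), -(2 * a / (1 + a ^ 2))), ⟨_, ?_, rfl⟩, ?_, ?_,
    2 * ((1 - a ^ 2) / (1 + a ^ 2)), ?_⟩
  · field_simp; ring
  · field_simp; ring
  · simp only [toC]
    push_cast
    rw [e2]
    field_simp
    linear_combination (-2 * ((a : ℝ) : ℂ) ^ 2) * hII
  · simp only [toC]
    push_cast
    rw [e2]
    field_simp
    ring
  · simp only [toC]
    push_cast
    rw [e2]
    field_simp
    ring


/-- from cubes modulo the ideal `J` to a homomorphism onto `F_3` -/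
lemma final (F : IntermediateField ℚ ℝ) (R : Subring ℂ) (hUR : ∀ z ∈ UC F, z ∈ R) (J : Ideal R)
    (hJtop : J ≠ ⊤) (h3J : (3 : R) ∈ J)
    (hcube : ∀ t : R, (∃ b : F, ((b : ℝ) : ℂ) = t) → t ^ 3 - t ∈ J) :
    Nonempty (integralClosure ℤ F →+* ZMod 3) := by
  obtain ⟨W, hRW, hJW⟩ := Ideal.image_subset_nonunits_valuationSubring J hJtop
  let emb : F →+* ℂ := Complex.ofRealHom.comp F.toSubfield.subtype
  have hemb : ∀ a : F, emb a = ((a : ℝ) : ℂ) := fun a => rfl
  have hW : ∀ a : integralClosure ℤ F, emb a ∈ W := by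
    intro a
    apply mem_of_int
    exact a.2.map (emb.toIntAlgHom)
  let φ : integralClosure ℤ F →+* W :=
    (emb.comp (integralClosure ℤ F).subtype).codRestrict W.toSubring hW
  let ρ := IsLocalRing.residue W
  have hρ : ∀ x : R, x ∈ J → ρ ⟨x, hRW x.2⟩ = 0 := by
    intro x hx
    have h1 : (x : ℂ) ∈ W.nonunits := hJW ⟨x, hx, rfl⟩
    obtain ⟨h2, h3⟩ := ValuationSubring.mem_nonunits_iff_exists_mem_maximalIdeal.1 h1
    exact (IsLocalRing.residue_eq_zero_iff _).2 h3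
  have hk3 : (3 : IsLocalRing.ResidueField W) = 0 := by
    have h1 := hρ 3 h3J
    have h2 : (⟨((3 : R) : ℂ), hRW (3 : R).2⟩ : W) = 3 := Subtype.ext (by rfl)
    rw [h2, map_ofNat] at h1
    exact h1
  apply liftHom (ρ.comp φ) hk3
  intro a
  obtain ⟨u, hu, v, hv, -, h4, b, hb⟩ := param (a : F)
  have hPR : u + v ∈ R := R.add_mem (hUR u hu) (hUR v hv)
  have h5 := hρ _ (hcube ⟨u + v, hPR⟩ ⟨b, hb.symm⟩)
  set p := ρ ⟨u + v, hRW hPR⟩ with hp
  have h6 : p ^ 3 - p = 0 := by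
    rw [hp, ← map_pow, ← map_sub, ← h5]
    congr 1
  have h7 : (p + 2) * (1 + ((ρ.comp φ) a) ^ 2) = 4 := by
    have h8 : ((⟨u + v, hRW hPR⟩ : W) + 2) * (1 + (φ a) ^ 2) = 4 := Subtype.ext h4
    have h9 := congrArg ρ h8
    simpa only [map_mul, map_add, map_pow, map_one, map_ofNat, RingHom.comp_apply] using h9
  set t := (ρ.comp φ) a
  have hQ : (p + 2) ≠ 0 := by
    intro h
    rw [h, zero_mul] at h7
    have : (1 : IsLocalRing.ResidueField W) = 0 := by linear_combination -h7 - hk3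
    exact one_ne_zero this
  have hQ2 : (p + 2) ^ 2 = 1 := by
    have h10 : (p + 2) * ((p + 2) ^ 2 - 1) = 0 := by
      linear_combination h6 + (2 * p ^ 2 + 4 * p + 2) * hk3
    rcases mul_eq_zero.1 h10 with h11 | h11
    · exact absurd h11 hQ
    · linear_combination h11
  have hA : (1 + t ^ 2) ^ 2 = 1 := by
    linear_combination ((p + 2) * (1 + t ^ 2) + 4) * h7 - (1 + t ^ 2) ^ 2 * hQ2 + 5 * hk3
  have h12 : t ^ 2 * ((t - 1) * (t + 1)) = 0 := by
    linear_combination hA - t ^ 2 * hk3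
  rcases mul_eq_zero.1 h12 with h13 | h13
  · have : t = 0 := by simpa using h13
    rw [this]; ring
  · linear_combination t * h13

end Pool.Agent.K7.H14.CF
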