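import Pool.Agent.K7.H14.CF.Fin

set_option autoImplicit false

namespace Pool.Agent.K7.H14.CF

open Pool.Agent.Results.MP_8b8716_co.ThreeValue Complex

lemma closure_finite {B : Type*} [CommRing B] (h3 : (3 : B) = 0) (t : B) (f : Polynomial ℤ)
    (hf : f.IsPrimitive) (hft : Polynomial.aeval t f = 0) :
    ((Subring.closure {t} : Subring B) : Set B).Finite := by
  rcases subsingleton_or_nontrivial B with hB | hB
  · exact Set.toFinite _
  have : Fact (Nat.Prime 3) := ⟨Nat.prime_three⟩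
  have : CharP B 3 := (CharP.charP_iff_prime_eq_zero Nat.prime_three).2 (by exact_mod_cast h3)
  letI := ZMod.algebra B 3
  have hint : IsIntegral (ZMod 3) t := by
    rw [← isAlgebraic_iff_isIntegral]
    refine ⟨f.map (Int.castRingHom (ZMod 3)), ?_, ?_⟩
    · intro h0
      have h1 : Polynomial.C (3 : ℤ) ∣ f := by
        rw [Polynomial.C_dvd_iff_dvd_coeff]
        intro i
        have h2 := congrArg (fun q => Polynomial.coeff q i) h0
        simp only [Polynomial.coeff_map, Polynomial.coeff_zero, eq_intCast] at h2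
        exact (ZMod.intCast_zmod_eq_zero_iff_dvd _ 3).1 h2
      have h3 := hf 3 h1
      exact absurd h3 (by decide)
    · have h1 : Polynomial.aeval t (f.map (algebraMap ℤ (ZMod 3))) = Polynomial.aeval t f :=
        Polynomial.aeval_map_algebraMap _ _ _
      exact h1.trans hft
  have hfg := hint.fg_adjoin_singleton
  have : Module.Finite (ZMod 3) (Algebra.adjoin (ZMod 3) {t}) := Module.Finite.iff_fg.2 hfg
  have : Finite (Algebra.adjoin (ZMod 3) {t}) := Module.finite_of_finite (ZMod 3)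
  have hfin : ((Algebra.adjoin (ZMod 3) {t} : Subalgebra (ZMod 3) B) : Set B).Finite := Set.toFinite _
  refine hfin.subset ?_
  have : Subring.closure {t} ≤ (Algebra.adjoin (ZMod 3) {t}).toSubring := by
    rw [Subring.closure_le]
    exact Algebra.subset_adjoin
  exact this

lemma exists_primitive {C : Type*} [Field C] [CharZero C] (x : C) (hx : IsAlgebraic ℤ x) :
    ∃ f : Polynomial ℤ, f.IsPrimitive ∧ Polynomial.aeval x f = 0 := by
  obtain ⟨p, hp, hpx⟩ := hx
  refine ⟨p.primPart, p.isPrimitive_primPart, ?_⟩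
  have h1 := p.eq_C_content_mul_primPart
  rw [h1, map_mul, Polynomial.aeval_C] at hpx
  rcases mul_eq_zero.1 hpx with h2 | h2
  · exfalso
    have h3 : p.content ≠ 0 := by rwa [Ne, Polynomial.content_eq_zero_iff]
    apply h3
    have : ((p.content : ℤ) : C) = 0 := by simpa using h2
    exact_mod_cast this
  · exact h2

/-- the additive map on the ring generated by the unit circle -/
lemma exists_map (hCol : StCol) (F : IntermediateField ℚ ℝ) (hs : ∃ s : F, s ^ 2 = 3)
    (hc : (unitDistGraph F).Colorable 3) :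
    ∃ l : Subring.closure (UC F : Set ℂ) →+ ZMod 3,
      ∀ z : Subring.closure (UC F : Set ℂ), (z : ℂ) ∈ UC F → l z ≠ 0 := by
  obtain ⟨l0, hl0⟩ := hCol F hs hc
  let T : F × F →+ ℂ :=
    { toFun := toC, map_zero' := by simp [toC], map_add' := fun p q => toC_add p q }
  have hTinj : Function.Injective T := toC_inj
  have himg : (UC F : Set ℂ) = T '' (Unit2 F) := by
    ext z
    constructor
    · rintro ⟨e, he, rfl⟩; exact ⟨e, he, rfl⟩
    · rintro ⟨e, he, rfl⟩; exact ⟨e, he, rfl⟩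
  have hRmem : ∀ z : ℂ, z ∈ Subring.closure (UC F : Set ℂ) →
      ∃ e ∈ AddSubgroup.closure (Unit2 F), T e = z := by
    intro z hz
    rw [Subring.mem_closure_iff, Submonoid.closure_eq, himg, ← AddMonoidHom.map_closure] at hz
    exact hz
  choose g hg1 hg2 using fun z : Subring.closure (UC F : Set ℂ) => hRmem z.1 z.2
  refine ⟨{ toFun := fun z => l0 ⟨g z, hg1 z⟩, map_zero' := ?_, map_add' := ?_ }, ?_⟩
  · have h0 : g 0 = 0 := hTinj (by rw [hg2, map_zero]; rfl)
    have : (⟨g 0, hg1 0⟩ : AddSubgroup.closure (Unit2 F)) = 0 := Subtype.ext h0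
    rw [this, map_zero]
  · intro z w
    have h0 : g (z + w) = g z + g w := hTinj (by rw [hg2, map_add, hg2, hg2]; rfl)
    have : (⟨g (z + w), hg1 (z + w)⟩ : AddSubgroup.closure (Unit2 F)) =
        ⟨g z, hg1 z⟩ + ⟨g w, hg1 w⟩ := Subtype.ext h0
    rw [this, map_add]
  · rintro z ⟨e, he, hez⟩
    have h0 : g z = e := hTinj (by rw [hg2, ← hez]; rfl)
    change l0 ⟨g z, hg1 z⟩ ≠ 0
    apply hl0
    change g z ∈ Unit2 F
    rw [h0]; exact he

theorem three_core (hAlg : StAlg) (F : IntermediateField ℚ ℝ) (hF : Algebra.IsAlgebraic ℚ F)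
    (R : Subring ℂ) (hR : R = Subring.closure (UC F : Set ℂ)) (l : R →+ ZMod 3)
    (hl : ∀ z : R, (z : ℂ) ∈ UC F → l z ≠ 0) : Nonempty (integralClosure ℤ F →+* ZMod 3) := by
  have hUR : ∀ z ∈ UC F, z ∈ R := fun z hz => by rw [hR]; exact Subring.subset_closure hz
  have hspan : ∀ (P : ℂ → Prop), P 0 → (∀ x y, P x → P y → P (x + y)) → (∀ x, P x → P (-x)) →
      (∀ z ∈ UC F, P z) → ∀ z ∈ R, P z := by
    intro P h0 ha hn hu z hz
    rw [hR, Subring.mem_closure_iff, Submonoid.closure_eq] at hz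
    induction hz using AddSubgroup.closure_induction with
    | mem x hx => exact hu x hx
    | zero => exact h0
    | add x y _ _ hx hy => exact ha x y hx hy
    | neg x _ hx => exact hn x hx
  let J : Ideal R :=
    { carrier := {x | ∀ y : R, l (x * y) = 0}
      zero_mem' := fun y => by rw [zero_mul, map_zero]
      add_mem' := fun {a b} ha hb y => by rw [add_mul, map_add, ha, hb, add_zero]
      smul_mem' := fun c x hx y => by
        rw [smul_eq_mul, show c * x * y = x * (c * y) by ring]; exact hx _ }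
  have hJ : ∀ x : R, x ∈ J ↔ ∀ y : R, l (x * y) = 0 := fun x => Iff.rfl
  have h1UC : (1 : ℂ) ∈ UC F := (UC F).one_mem
  have hJtop : J ≠ ⊤ := by
    rw [Ideal.ne_top_iff_one]
    intro h
    have := (hJ 1).1 h 1
    rw [mul_one] at this
    exact hl 1 h1UC this
  obtain ⟨lb, hlb⟩ := descend J l (fun x hx => by
    have := (hJ x).1 hx 1
    rwa [mul_one] at this)
  have : Nontrivial (R ⧸ J) := Ideal.Quotient.nontrivial_iff.2 hJtop
  let π := Ideal.Quotient.mk J
  have hπ : ∀ x : R, π x = 0 ↔ x ∈ J := fun x => Ideal.Quotient.eq_zero_iff_mem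
  have h3J : ((3 : ℕ) : R) ∈ J := by
    rw [hJ]
    intro y
    have : ((3 : ℕ) : R) * y = (3 : ℕ) • y := by rw [nsmul_eq_mul]
    rw [this, map_nsmul]
    generalize l y = a
    revert a; decide
  have h3B : (3 : R ⧸ J) = 0 := by
    have := (hπ _).2 h3J
    rw [map_natCast] at this
    exact_mod_cast this
  let iR : R := ⟨I, hUR I (I_mem_UC F)⟩
  have hiR : iR ^ 2 = -1 := Subtype.ext (by
    change (I : ℂ) ^ 2 = -1
    exact I_sq)
  let FC : Subfield ℂ := F.toSubfield.map Complex.ofRealHom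
  have hFC : ∀ x, x ∈ FC ↔ ∃ a : F, ((a : ℝ) : ℂ) = x := by
    intro x
    simp only [FC, Subfield.mem_map]
    constructor
    · rintro ⟨a, ha, rfl⟩; exact ⟨⟨a, ha⟩, rfl⟩
    · rintro ⟨a, rfl⟩; exact ⟨a, a.2, rfl⟩
  have halg : ∀ x ∈ FC, IsAlgebraic ℤ x := by
    intro x hx
    obtain ⟨a, rfl⟩ := (hFC x).mp hx
    have h1 : IsAlgebraic ℚ a := hF.isAlgebraic a
    have h2 : IsAlgebraic ℤ a := (IsFractionRing.isAlgebraic_iff ℤ ℚ F).mpr h1
    have h3 : IsAlgebraic ℤ (algebraMap F ℝ a) := h2.algebraMap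
    have h4 : IsAlgebraic ℤ (algebraMap ℝ ℂ (algebraMap F ℝ a)) := h3.algebraMap
    exact h4
  let UR : Submonoid R := (UC F).comap R.subtype
  let R0 : Subring R := FC.toSubring.comap R.subtype
  have hcube := hAlg (R ⧸ J) h3B lb (π iR) (by rw [← map_pow, hiR, map_neg, map_one])
    (UR.map π) ⟨iR, I_mem_UC F, rfl⟩ ?_ ?_ (R0.map π) ?_ ?_
  · refine final F R hUR J hJtop (by exact_mod_cast h3J) ?_
    intro t ht
    rw [← hπ, map_sub, map_pow, sub_eq_zero]
    exact hcube (π t) ⟨t, (hFC _).2 ht, rfl⟩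
  · rintro _ ⟨u, hu, rfl⟩
    change lb (Ideal.Quotient.mk J u) ≠ 0
    rw [hlb]; exact hl u hu
  · intro x hx
    obtain ⟨r, rfl⟩ := Ideal.Quotient.mk_surjective x
    rw [Ideal.Quotient.eq_zero_iff_mem, hJ]
    intro y
    have key := hspan (fun z => ∃ hz : z ∈ R, l (r * ⟨z, hz⟩) = 0) ?_ ?_ ?_ ?_ y y.2
    · exact key.2
    · refine ⟨R.zero_mem, ?_⟩
      have : (⟨0, R.zero_mem⟩ : R) = 0 := rfl
      rw [this, mul_zero, map_zero]
    · rintro x y ⟨hx, hx'⟩ ⟨hy, hy'⟩
      refine ⟨R.add_mem hx hy, ?_⟩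
      have : (⟨x + y, R.add_mem hx hy⟩ : R) = ⟨x, hx⟩ + ⟨y, hy⟩ := rfl
      rw [this, mul_add, map_add, hx', hy', add_zero]
    · rintro x ⟨hx, hx'⟩
      refine ⟨R.neg_mem hx, ?_⟩
      have : (⟨-x, R.neg_mem hx⟩ : R) = -⟨x, hx⟩ := rfl
      rw [this, mul_neg, map_neg, hx', neg_zero]
    · intro z hz
      refine ⟨hUR z hz, ?_⟩
      have h4 := hx (π ⟨z, hUR z hz⟩) ⟨⟨z, hUR z hz⟩, hz, rfl⟩
      change lb (Ideal.Quotient.mk J r * Ideal.Quotient.mk J ⟨z, hUR z hz⟩) = 0 at h4
      rwa [← map_mul, hlb] at h4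
  · rintro _ ⟨t, ht, rfl⟩
    obtain ⟨a, ha⟩ := (hFC _).1 ht
    obtain ⟨u, hu, v, hv, h1, -, -⟩ := param a
    refine ⟨π ⟨u, hUR u hu⟩, ⟨⟨u, hUR u hu⟩, hu, rfl⟩, ?_⟩
    have h5 : (1 - t * iR) * ⟨u, hUR u hu⟩ = 1 + t * iR := by
      apply Subtype.ext
      have ha' : ((a : ℝ) : ℂ) = (t : ℂ) := ha
      rw [ha'] at h1
      exact h1
    have h6 := congrArg π h5
    simpa [π] using h6
  · rintro _ ⟨t, ht, rfl⟩
    obtain ⟨f, hf, hft⟩ := exists_primitive (t : ℂ) (halg _ ht)
    refine closure_finite h3B _ f hf ?_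
    have h1 : Polynomial.aeval t f = 0 := by
      have h2 : R.subtype (Polynomial.aeval t f) = Polynomial.aeval (R.subtype t) f :=
        (Polynomial.aeval_algHom_apply (R.subtype.toIntAlgHom) t f).symm
      apply Subtype.ext
      exact h2.trans hft
    have h3 : Polynomial.aeval (π t) f = π (Polynomial.aeval t f) :=
      Polynomial.aeval_algHom_apply (π.toIntAlgHom) t f
    exact h3.trans (by rw [h1, map_zero])

theorem three (hAlg : StAlg) (hCol : StCol) : StThree := by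
  intro F hF hs hc
  obtain ⟨l, hl⟩ := exists_map hCol F hs hc
  exact three_core hAlg F hF _ rfl l hl

end Pool.Agent.K7.H14.CF
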