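import Pool.Agent.K7.H14.CF.Fin

/-!
# Algebraic integers of real quadratic fields
-/

set_option autoImplicit false

namespace Pool.Agent.K7.H14.CF.Quad

open Polynomial

/-- the conjugate of a polynomial value -/
lemma conj_val (d : ℕ) (s : ℝ) (hs : s ^ 2 = d) (x y : ℚ) (p : ℤ[X]) :
    ∃ u v : ℚ, aeval ((x : ℝ) + y * s) p = u + v * s ∧ aeval ((x : ℝ) - y * s) p = u - v * s := by
  induction p using Polynomial.induction_on with
  | C a => exact ⟨a, 0, by simp, by simp⟩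
  | add p q hp hq =>
    obtain ⟨u, v, h1, h2⟩ := hp
    obtain ⟨u', v', h3, h4⟩ := hq
    refine ⟨u + u', v + v', ?_, ?_⟩
    · rw [map_add, h1, h3]; push_cast; ring
    · rw [map_add, h2, h4]; push_cast; ring
  | monomial n a hn =>
    obtain ⟨u, v, h1, h2⟩ := hn
    refine ⟨u * x + d * v * y, u * y + v * x, ?_, ?_⟩
    · rw [pow_succ, ← mul_assoc, map_mul, h1, aeval_X]; push_cast
      linear_combination (v : ℝ) * y * hs
    · rw [pow_succ, ← mul_assoc, map_mul, h2, aeval_X]; push_cast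
      linear_combination (v : ℝ) * y * hs

lemma eq_zero_of (s : ℝ) (hs : Irrational s) (u v : ℚ) (h : (u : ℝ) + v * s = 0) :
    u = 0 ∧ v = 0 := by
  have hv : v = 0 := by
    by_contra hv
    apply hs
    refine ⟨-u / v, ?_⟩
    have hv' : (v : ℝ) ≠ 0 := by exact_mod_cast hv
    push_cast
    field_simp
    linear_combination -h
  subst hv
  simp at h
  exact ⟨by exact_mod_cast h, rfl⟩

lemma int_conj (d : ℕ) (s : ℝ) (hs : s ^ 2 = d) (hirr : Irrational s) (x y : ℚ)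
    (h : IsIntegral ℤ ((x : ℝ) + y * s)) : IsIntegral ℤ ((x : ℝ) - y * s) := by
  obtain ⟨p, hp, hp0⟩ := h
  refine ⟨p, hp, ?_⟩
  obtain ⟨u, v, h1, h2⟩ := conj_val d s hs x y p
  have h3 : aeval ((x : ℝ) + y * s) p = 0 := hp0
  rw [h3] at h1
  obtain ⟨hu, hv⟩ := eq_zero_of s hirr u v h1.symm
  subst hu; subst hv
  have h4 : aeval ((x : ℝ) - y * s) p = 0 := by rw [h2]; simp
  exact h4

lemma int_of_rat (q : ℚ) (h : IsIntegral ℤ (q : ℝ)) : ∃ n : ℤ, q = n := by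
  have h1 : IsIntegral ℤ q := by
    have := (isIntegral_algHom_iff ((algebraMap ℚ ℝ).toIntAlgHom) (algebraMap ℚ ℝ).injective
      (x := q)).1 (by simpa using h)
    exact this
  obtain ⟨n, hn⟩ := (IsIntegrallyClosed.isIntegral_iff (R := ℤ) (K := ℚ)).1 h1
  exact ⟨n, by rw [← hn]; simp⟩

lemma quad (d : ℕ) (s : ℝ) (hs : s ^ 2 = d) (hirr : Irrational s) (x y : ℚ)
    (h : IsIntegral ℤ ((x : ℝ) + y * s)) : ∃ X N : ℤ, 2 * x = X ∧ x ^ 2 - d * y ^ 2 = N := by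
  have h' := int_conj d s hs hirr x y h
  obtain ⟨X, hX⟩ := int_of_rat (2 * x) (by
    have := h.add h'
    have e : (((2 * x : ℚ)) : ℝ) = ((x : ℝ) + y * s) + ((x : ℝ) - y * s) := by push_cast; ring
    rw [e]; exact this)
  obtain ⟨N, hN⟩ := int_of_rat (x ^ 2 - d * y ^ 2) (by
    have := h.mul h'
    have e : (((x ^ 2 - d * y ^ 2 : ℚ)) : ℝ) = ((x : ℝ) + y * s) * ((x : ℝ) - y * s) := by
      push_cast
      linear_combination (y : ℝ) ^ 2 * hs
    rw [e]; exact this)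
  exact ⟨X, N, hX, hN⟩

lemma sqf_int (d : ℕ) (hd : Squarefree d) (y : ℚ) (N : ℤ) (h : (d : ℚ) * y ^ 2 = N) :
    ∃ n : ℤ, y = n := by
  have hden : (y.den : ℤ) ≠ 0 := by exact_mod_cast y.den_nz
  have h1 : (d : ℤ) * y.num ^ 2 = N * y.den ^ 2 := by
    have h2 : y = y.num / y.den := (Rat.num_div_den y).symm
    have h3 : (y.den : ℚ) ≠ 0 := by exact_mod_cast y.den_nz
    rw [h2] at h
    field_simp at h
    have h4 : ((d : ℤ) : ℚ) * (y.num : ℚ) ^ 2 = (N : ℚ) * ((y.den : ℤ) : ℚ) ^ 2 := by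
      push_cast
      linear_combination h
    exact_mod_cast h4
  have h2 : (y.den : ℤ) ^ 2 ∣ (d : ℤ) * y.num ^ 2 := ⟨N, by rw [h1]; ring⟩
  have hco : IsCoprime ((y.den : ℤ) ^ 2) (y.num ^ 2) := by
    have : IsCoprime (y.den : ℤ) y.num := by
      have := y.reduced
      rw [Int.isCoprime_iff_nat_coprime]
      simpa using this.symm
    exact this.pow
  have h3 : (y.den : ℤ) ^ 2 ∣ (d : ℤ) := hco.dvd_of_dvd_mul_right h2
  have h4 : y.den * y.den ∣ d := by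
    have : ((y.den * y.den : ℕ) : ℤ) ∣ (d : ℤ) := by
      push_cast; rw [← pow_two]; exact h3
    exact_mod_cast this
  have h5 : y.den = 1 := Nat.isUnit_iff.1 (hd y.den h4)
  exact ⟨y.num, by
    have := (Rat.num_div_den y).symm
    rw [h5] at this
    simpa using this⟩

set_option maxRecDepth 100000 in
lemma res8 : ∀ x y d M : ZMod 8, 2 * M = x ^ 2 + d * y ^ 2 + 1 → 2 * (M ^ 2 - d * x ^ 2 * y ^ 2) = 0 →
    d = 3 ∨ d = 7 := by
  decide

/-- the congruence -/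
lemma cong (d : ℕ) (x y M N : ℤ) (h1 : 2 * M = x ^ 2 + d * y ^ 2 + 1)
    (h2 : M ^ 2 - d * x ^ 2 * y ^ 2 = 4 * N) : d % 4 = 3 := by
  have e1 : (2 * (M : ZMod 8)) = (x : ZMod 8) ^ 2 + (d : ZMod 8) * (y : ZMod 8) ^ 2 + 1 := by
    have := congrArg (fun z : ℤ => (z : ZMod 8)) h1
    push_cast at this
    exact this
  have e2 : (2 * ((M : ZMod 8) ^ 2 - (d : ZMod 8) * (x : ZMod 8) ^ 2 * (y : ZMod 8) ^ 2)) = 0 := by
    have := congrArg (fun z : ℤ => (2 : ZMod 8) * (z : ZMod 8)) h2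
    push_cast at this
    rw [this, ← mul_assoc]
    have : (2 * 4 : ZMod 8) = 0 := by decide
    rw [this, zero_mul]
  have h3 := res8 _ _ _ _ e1 e2
  have h4 : ((d % 8 : ℕ) : ZMod 8) = (d : ZMod 8) := ZMod.natCast_mod d 8
  rcases h3 with h3 | h3
  · have h5 : (d : ZMod 8) = ((3 : ℕ) : ZMod 8) := by rw [h3]; rfl
    rw [ZMod.natCast_eq_natCast_iff'] at h5
    omega
  · have h5 : (d : ZMod 8) = ((7 : ℕ) : ZMod 8) := by rw [h3]; rfl
    rw [ZMod.natCast_eq_natCast_iff'] at h5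
    omega

lemma even_of_sq (X N M : ℤ) (h : X ^ 2 - 2 * N + 2 = 4 * M) : ∃ x : ℤ, X = 2 * x := by
  have h1 : Even (X ^ 2) := ⟨2 * M + N - 1, by linarith⟩
  have h2 : Even X := by
    rcases Int.even_or_odd X with h3 | h3
    · exact h3
    · exact absurd h1 (Int.not_even_iff_odd.2 h3.pow)
  obtain ⟨x, hx⟩ := h2
  exact ⟨x, by omega⟩

/-- the criterion of the two-colourability for quadratic fields -/
lemma crit (d : ℕ) (hd : Squarefree d) (s : ℝ) (hs : s ^ 2 = d) (hirr : Irrational s) (x y : ℚ)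
    (ha : IsIntegral ℤ ((x : ℝ) + y * s))
    (hb : IsIntegral ℤ ((((x : ℝ) + y * s) ^ 2 + 1) / 4)) : d % 4 = 3 := by
  obtain ⟨X, N, hX, hN⟩ := quad d s hs hirr x y ha
  have e : (((x : ℝ) + y * s) ^ 2 + 1) / 4
      = (((x ^ 2 + d * y ^ 2 + 1) / 4 : ℚ) : ℝ) + ((x * y / 2 : ℚ) : ℝ) * s := by
    push_cast
    linear_combination ((y : ℝ) ^ 2 / 4) * hs
  rw [e] at hb
  obtain ⟨M, N', hM, hN'⟩ := quad d s hs hirr _ _ hb
  have h1 : X ^ 2 - 2 * N + 2 = 4 * M := by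
    have : ((X : ℚ)) ^ 2 - 2 * N + 2 = 4 * M := by
      rw [← hX, ← hN, ← hM]; ring
    exact_mod_cast this
  obtain ⟨x₀, hx₀⟩ := even_of_sq X N M h1
  have hx : x = x₀ := by
    have : 2 * x = 2 * (x₀ : ℚ) := by rw [hX, hx₀]; push_cast; ring
    linarith
  obtain ⟨y₀, hy⟩ := sqf_int d hd y (x₀ ^ 2 - N) (by
    push_cast
    rw [← hN, hx]; ring)
  refine cong d x₀ y₀ M N' ?_ ?_
  · have : 2 * (M : ℚ) = (x₀ : ℚ) ^ 2 + d * (y₀ : ℚ) ^ 2 + 1 := by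
      rw [← hM, hx, hy]; ring
    exact_mod_cast this
  · have : (M : ℚ) ^ 2 - d * (x₀ : ℚ) ^ 2 * (y₀ : ℚ) ^ 2 = 4 * N' := by
      rw [← hM, ← hN', hx, hy]; ring
    exact_mod_cast this

lemma both_even (X Y d N : ℤ) (hd : d % 4 = 3) (h : X ^ 2 - d * Y ^ 2 = 4 * N) :
    ∃ x y : ℤ, X = 2 * x ∧ Y = 2 * y := by
  have hX : X % 4 = 0 ∨ X % 4 = 1 ∨ X % 4 = 2 ∨ X % 4 = 3 := by omega
  have hY : Y % 4 = 0 ∨ Y % 4 = 1 ∨ Y % 4 = 2 ∨ Y % 4 = 3 := by omega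
  have h4 : (X ^ 2 - d * Y ^ 2) % 4 = 0 := by rw [h]; omega
  have h5 : ((X % 4) ^ 2 - (d % 4) * (Y % 4) ^ 2) % 4 = 0 := by
    rw [← h4]
    simp [Int.sub_emod, Int.mul_emod, pow_two]
  rw [hd] at h5
  have : X % 2 = 0 ∧ Y % 2 = 0 := by
    rcases hX with h1 | h1 | h1 | h1 <;> rcases hY with h2 | h2 | h2 | h2 <;>
      rw [h1, h2] at h5 <;> first | omega | (norm_num at h5)
  exact ⟨X / 2, Y / 2, by omega, by omega⟩

/-- the integers for `d = 3` modulo `4` -/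
lemma int_pair (d : ℕ) (hd : Squarefree d) (hd4 : d % 4 = 3) (s : ℝ) (hs : s ^ 2 = d)
    (hirr : Irrational s) (x y : ℚ) (ha : IsIntegral ℤ ((x : ℝ) + y * s)) :
    ∃ m n : ℤ, x = m ∧ y = n := by
  obtain ⟨X, N, hX, hN⟩ := quad d s hs hirr x y ha
  obtain ⟨Y, hY⟩ := sqf_int d hd (2 * y) (X ^ 2 - 4 * N) (by
    push_cast
    rw [← hX, ← hN]; ring)
  have h : X ^ 2 - (d : ℤ) * Y ^ 2 = 4 * N := by
    have : (X : ℚ) ^ 2 - d * (Y : ℚ) ^ 2 = 4 * N := by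
      rw [← hX, ← hN, ← hY]; ring
    exact_mod_cast this
  obtain ⟨m, n, hm, hn⟩ := both_even X Y d N (by omega) h
  refine ⟨m, n, ?_, ?_⟩
  · have : 2 * x = 2 * (m : ℚ) := by rw [hX, hm]; push_cast; ring
    linarith
  · have : 2 * y = 2 * (n : ℚ) := by rw [hY, hn]; push_cast; ring
    linarith

end Pool.Agent.K7.H14.CF.Quad
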