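import Pool.Agent.K7.H14.CF.Quad

/-!
# Chromatic numbers for real quadratic fields
-/

set_option autoImplicit false

namespace Pool.Agent.K7.H14.CF.Quad

open Polynomial Pool.Agent.Results.MP_8b8716_co.ThreeValue

lemma repr (d : ℕ) (s : ℝ) (hs : s ^ 2 = d) (hirr : Irrational s) (a : ℝ)
    (ha : a ∈ IntermediateField.adjoin ℚ ({s} : Set ℝ)) : ∃ x y : ℚ, a = x + y * s := by
  induction ha using IntermediateField.adjoin_induction with
  | mem x hx =>
    rw [Set.mem_singleton_iff] at hx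
    exact ⟨0, 1, by rw [hx]; simp⟩
  | algebraMap x => exact ⟨x, 0, by simp⟩
  | add x y _ _ hx hy =>
    obtain ⟨a, b, rfl⟩ := hx
    obtain ⟨a', b', rfl⟩ := hy
    exact ⟨a + a', b + b', by push_cast; ring⟩
  | inv x _ hx =>
    obtain ⟨a, b, rfl⟩ := hx
    by_cases h0 : (a : ℝ) + b * s = 0
    · exact ⟨0, 0, by rw [h0]; simp⟩
    · have h1 : (a : ℝ) + ((-b : ℚ) : ℝ) * s ≠ 0 := by
        intro h
        obtain ⟨h2, h3⟩ := eq_zero_of s hirr _ _ h
        apply h0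
        have h4 : b = 0 := by linarith
        rw [h2, h4]; simp
      have h2 : ((a ^ 2 - d * b ^ 2 : ℚ) : ℝ) = ((a : ℝ) + b * s) * ((a : ℝ) + ((-b : ℚ) : ℝ) * s) := by
        push_cast
        linear_combination (b : ℝ) ^ 2 * hs
      have h3 : ((a ^ 2 - d * b ^ 2 : ℚ) : ℝ) ≠ 0 := by
        rw [h2]; exact mul_ne_zero h0 h1
      refine ⟨a / (a ^ 2 - d * b ^ 2), -b / (a ^ 2 - d * b ^ 2), ?_⟩
      have h4 : ((a / (a ^ 2 - d * b ^ 2) : ℚ) : ℝ) + ((-b / (a ^ 2 - d * b ^ 2) : ℚ) : ℝ) * s =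
          ((a : ℝ) + ((-b : ℚ) : ℝ) * s) / ((a ^ 2 - d * b ^ 2 : ℚ) : ℝ) := by
        push_cast
        ring
      rw [h4, h2, div_mul_cancel_right₀ h1]
  | mul x y _ _ hx hy =>
    obtain ⟨a, b, rfl⟩ := hx
    obtain ⟨a', b', rfl⟩ := hy
    refine ⟨a * a' + d * (b * b'), a * b' + b * a', ?_⟩
    push_cast
    linear_combination (b : ℝ) * b' * hs

lemma irr (d : ℕ) (hd : Squarefree d) (h1 : 1 < d) : Irrational (Real.sqrt d) := by
  rw [irrational_sqrt_natCast_iff]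
  rintro ⟨k, hk⟩
  have h2 : k = 1 := Nat.isUnit_iff.1 (hd k ⟨1, by rw [hk, mul_one]⟩)
  rw [h2] at hk
  omega

/-- the real quadratic field -/
noncomputable abbrev QF (d : ℕ) : IntermediateField ℚ ℝ :=
  IntermediateField.adjoin ℚ ({Real.sqrt d} : Set ℝ)

lemma algF (d : ℕ) : Algebra.IsAlgebraic ℚ (QF d) := by
  apply IntermediateField.isAlgebraic_adjoin
  intro x hx
  rw [Set.mem_singleton_iff] at hx
  rw [hx]
  refine ⟨X ^ 2 - C (d : ℚ), monic_X_pow_sub_C _ two_ne_zero, ?_⟩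
  have : Real.sqrt d ^ 2 = d := Real.sq_sqrt (Nat.cast_nonneg d)
  simp [this]

lemma two_col (d : ℕ) (hd : Squarefree d) (h1 : 1 < d) (h4 : d % 4 ≠ 3) :
    (unitDistGraph (QF d)).Colorable 2 := by
  have hs : Real.sqrt d ^ 2 = d := Real.sq_sqrt (Nat.cast_nonneg d)
  refine two_colorable_of_no (QF d) (algF d) ?_
  rintro ⟨a, ha, hb⟩
  obtain ⟨x, y, hxy⟩ := repr d _ hs (irr d hd h1) a a.2
  apply h4
  refine crit d hd (Real.sqrt d) hs (irr d hd h1) x y ?_ ?_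
  · rw [← hxy]
    exact ha.map ((algebraMap (QF d) ℝ).toIntAlgHom)
  · rw [← hxy]
    have h2 := hb.map ((algebraMap (QF d) ℝ).toIntAlgHom)
    have h3 : ((algebraMap (QF d) ℝ).toIntAlgHom) ((a ^ 2 + 1) / 4) = ((a : ℝ) ^ 2 + 1) / 4 := by
      change ((((a ^ 2 + 1) / 4 : QF d)) : ℝ) = _
      have e4 : (((4 : QF d)) : ℝ) = 4 := by norm_cast
      push_cast
      rw [e4]
    rwa [h3] at h2

/-- the square root as an element of the field -/
noncomputable def rt (d : ℕ) : QF d :=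
  ⟨Real.sqrt d, IntermediateField.subset_adjoin ℚ _ (Set.mem_singleton _)⟩

lemma rt_sq (d : ℕ) : rt d ^ 2 = d := by
  apply Subtype.ext
  have : Real.sqrt d ^ 2 = d := Real.sq_sqrt (Nat.cast_nonneg d)
  simpa [rt] using this

lemma rt_int (d : ℕ) : IsIntegral ℤ (rt d) := by
  refine ⟨X ^ 2 - C (d : ℤ), monic_X_pow_sub_C _ two_ne_zero, ?_⟩
  simp [rt_sq]

lemma not_two (d : ℕ) (h4 : d % 4 = 3) : ¬ (unitDistGraph (QF d)).Colorable 2 := by
  refine not_two_colorable_of (QF d) (rt d) (rt_int d) ?_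
  obtain ⟨k, hk⟩ : ∃ k : ℕ, d + 1 = 4 * k := ⟨(d + 1) / 4, by omega⟩
  have : (rt d ^ 2 + 1) / 4 = ((k : ℕ) : QF d) := by
    rw [rt_sq]
    have h2 : ((d : QF d) + 1) = 4 * (k : QF d) := by exact_mod_cast congrArg (Nat.cast (R := QF d)) hk
    rw [h2]
    field_simp
  rw [this]
  have h3 := isIntegral_algebraMap (R := ℤ) (A := QF d) (x := (k : ℤ))
  simpa using h3

lemma hom3_field {A k : Type} [CommRing A] [Field k] (ψ : A →+* k) (hk3 : (3 : k) = 0) (d : ℕ)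
    (h3 : d % 3 ≠ 2) (t : A) (ht : t ^ 2 = (d : A)) (hrep : ∀ a : A, ∃ m n : ℤ, a = m + n * t) :
    Nonempty (A →+* ZMod 3) := by
  have hint : ∀ m : ℤ, ((m : k)) ^ 3 = m := by
    intro m
    have h5 : (3 : ℤ) ∣ m ^ 3 - m := by
      have h6 : m % 3 = 0 ∨ m % 3 = 1 ∨ m % 3 = 2 := by omega
      apply Int.dvd_of_emod_eq_zero
      rcases h6 with h6 | h6 | h6 <;> simp [pow_succ, Int.sub_emod, Int.mul_emod, h6]
    obtain ⟨c, hc⟩ := h5
    have h6 : ((m : k)) ^ 3 - m = 3 * c := by exact_mod_cast congrArg (Int.cast (R := k)) hc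
    rw [hk3, zero_mul] at h6
    exact sub_eq_zero.1 h6
  have ht' : ∃ n : ℤ, ψ t = n := by
    have h5 : (ψ t) ^ 2 = (d : k) := by
      rw [← map_pow, ht, map_natCast]
    have h6 : (d : k) = ((d % 3 : ℕ) : k) := by
      have h7 : ((3 * (d / 3) + d % 3 : ℕ) : k) = (d : k) := by rw [Nat.div_add_mod]
      rw [← h7]
      push_cast
      rw [hk3]; ring
    rw [h6] at h5
    have h8 : d % 3 = 0 ∨ d % 3 = 1 := by omega
    rcases h8 with h8 | h8
    · rw [h8] at h5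
      refine ⟨0, ?_⟩
      simpa using h5
    · rw [h8] at h5
      have h9 : (ψ t - 1) * (ψ t + 1) = 0 := by
        push_cast at h5
        linear_combination h5
      rcases mul_eq_zero.1 h9 with h9 | h9
      · exact ⟨1, by push_cast; linear_combination h9⟩
      · exact ⟨-1, by push_cast; linear_combination h9⟩
  refine liftHom ψ hk3 ?_
  intro a
  obtain ⟨m, n, hmn⟩ := hrep a
  obtain ⟨l, hl⟩ := ht'
  have h5 : ψ a = ((m + n * l : ℤ) : k) := by
    rw [hmn, map_add, map_mul, hl, map_intCast, map_intCast]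
    push_cast; ring
  rw [h5]
  exact hint _

/-- a quadratic order with `d` a square modulo three -/
lemma hom3_gen {A : Type} [CommRing A] (d : ℕ) (h3 : d % 3 ≠ 2) (t : A) (ht : t ^ 2 = (d : A))
    (hrep : ∀ a : A, ∃ m n : ℤ, a = m + n * t) (hu : ∀ c : A, (1 : A) ≠ ((3 : ℕ) : A) * c) :
    Nonempty (A →+* ZMod 3) := by
  have h3u : Ideal.span {((3 : ℕ) : A)} ≠ ⊤ := by
    rw [Ideal.ne_top_iff_one, Ideal.mem_span_singleton]
    rintro ⟨c, hc⟩
    exact hu c hc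
  obtain ⟨M, hM, hle⟩ := Ideal.exists_le_maximal _ h3u
  letI : Field (A ⧸ M) := Ideal.Quotient.field M
  refine hom3_field (Ideal.Quotient.mk M) ?_ d h3 t ht hrep
  have h4 : ((3 : ℕ) : A) ∈ M := hle (Ideal.mem_span_singleton_self _)
  have h5 := Ideal.Quotient.eq_zero_iff_mem.2 h4
  rw [map_natCast] at h5
  exact_mod_cast h5

/-- for `d = 3` modulo `4`, `d` not `2` modulo `3`, the integers have a homomorphism to `F_3` -/
lemma hom3 (d : ℕ) (hd : Squarefree d) (h1 : 1 < d) (h4 : d % 4 = 3) (h3 : d % 3 ≠ 2) :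
    Nonempty (integralClosure ℤ (QF d) →+* ZMod 3) := by
  have hs : Real.sqrt d ^ 2 = d := Real.sq_sqrt (Nat.cast_nonneg d)
  have hrep : ∀ a : integralClosure ℤ (QF d), ∃ m n : ℤ,
      a = m + n * (⟨rt d, rt_int d⟩ : integralClosure ℤ (QF d)) := by
    intro a
    obtain ⟨x, y, hxy⟩ := repr d _ hs (irr d hd h1) (a : QF d) (a : QF d).2
    have ha : IsIntegral ℤ ((x : ℝ) + y * Real.sqrt d) := by
      rw [← hxy]
      exact a.2.map ((algebraMap (QF d) ℝ).toIntAlgHom)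
    obtain ⟨m, n, hm, hn⟩ := int_pair d hd h4 (Real.sqrt d) hs (irr d hd h1) x y ha
    refine ⟨m, n, Subtype.ext (Subtype.ext ?_)⟩
    rw [hxy, hm, hn]
    simp [rt]
  refine hom3_gen d h3 ⟨rt d, rt_int d⟩ (Subtype.ext (by simpa using rt_sq d)) hrep ?_
  intro c hc
  obtain ⟨m, n, hmn⟩ := hrep c
  have h5 : (1 : ℝ) = ((3 : ℕ) : ℝ) * (m + n * Real.sqrt d) := by
    let Φ : integralClosure ℤ (QF d) →+* ℝ :=
      (algebraMap (QF d) ℝ).comp (algebraMap (integralClosure ℤ (QF d)) (QF d))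
    have h6 := congrArg Φ hc
    have h7 : Φ ⟨rt d, rt_int d⟩ = Real.sqrt d := rfl
    rw [hmn, map_one, map_mul, map_natCast, map_add, map_mul, map_intCast, map_intCast, h7] at h6
    exact h6
  have h6 : (((3 * m - 1 : ℤ) : ℚ) : ℝ) + ((3 * n : ℤ) : ℚ) * Real.sqrt d = 0 := by
    push_cast
    push_cast at h5
    linear_combination -h5
  obtain ⟨h7, -⟩ := eq_zero_of _ (irr d hd h1) _ _ h6
  have h8 : 3 * m - 1 = 0 := by exact_mod_cast h7
  omega

end Pool.Agent.K7.H14.CF.Quad
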