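import Pool.Agent.Results.MP_8b8716_co.ThreeValue

/-!
# Reduction of the unit-distance graph of `F²` modulo a prime
-/

set_option autoImplicit false

namespace Pool.Agent.K7.H14.CF.Redn

open Pool.Agent.Results.MP_8b8716_co.ThreeValue

/-- the unit circle graph of the plane over `F_p` -/
def circleGraph (p : ℕ) (h1 : 1 < p) : SimpleGraph (ZMod p × ZMod p) where
  Adj u v := (u.1 - v.1) ^ 2 + (u.2 - v.2) ^ 2 = 1
  symm := ⟨by
    intro u v h
    rw [← h]; ring⟩
  loopless := ⟨by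
    intro u h
    haveI : Fact (1 < p) := ⟨h1⟩
    simp at h⟩

theorem reduction (F : IntermediateField ℚ ℝ) (hF : Algebra.IsAlgebraic ℚ F) (p : ℕ)
    (hp : p.Prime) (hp4 : p % 4 = 3) (φ : integralClosure ℤ F →+* ZMod p) :
    Nonempty (unitDistGraph F →g circleGraph p hp.one_lt) := by
  haveI hfact : Fact p.Prime := ⟨hp⟩
  let A : Subring F := (integralClosure ℤ F).toSubring
  let ψ : A →+* ZMod p := φ
  have hA : ∀ x : F, x ∈ A ↔ IsIntegral ℤ x := fun x => Iff.rfl
  have htop : RingHom.ker ψ ≠ ⊤ := RingHom.ker_ne_top ψ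
  obtain ⟨W, hAW, hKW⟩ := Ideal.image_subset_nonunits_valuationSubring (RingHom.ker ψ) htop
  have hker : ∀ x : A, ψ x = 0 → W.valuation (x : F) < 1 := fun x hx =>
    W.mem_nonunits_iff.mp (hKW ⟨x, hx, rfl⟩)
  have h3 : W.valuation ((p : ℕ) : F) < 1 := by
    have h := hker ((p : ℕ) : A) (by rw [map_natCast]; exact ZMod.natCast_self p)
    have e : (((p : ℕ) : A) : F) = ((p : ℕ) : F) := by push_cast; rfl
    rwa [e] at h
  have halg : ∀ x : F, IsAlgebraic ℤ x := fun x =>
    (IsFractionRing.isAlgebraic_iff ℤ ℚ F).mpr (hF.isAlgebraic x)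
  have hres : ∀ x ∈ W, ∃ r : ZMod p, W.valuation (x - (r.val : F)) < 1 := by
    intro x hx
    obtain ⟨s, -, hs, hsv, hsx⟩ := clear_den W hp h3 ⊤ (Subfield.mem_top x) hx (halg x)
    have hφs : ψ ⟨s, hs⟩ ≠ 0 := by
      intro h
      have := hker _ h
      simp [hsv] at this
    refine ⟨ψ ⟨s * x, hsx⟩ * (ψ ⟨s, hs⟩)⁻¹, ?_⟩
    set r := ψ ⟨s * x, hsx⟩ * (ψ ⟨s, hs⟩)⁻¹ with hr
    have h4 : ψ (⟨s * x, hsx⟩ - (r.val : A) * ⟨s, hs⟩) = 0 := by
      rw [map_sub, map_mul, map_natCast, ZMod.natCast_zmod_val, hr, mul_assoc, inv_mul_cancel₀ hφs,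
        mul_one, sub_self]
    have h5 := hker _ h4
    have h6 : (((⟨s * x, hsx⟩ - (r.val : A) * ⟨s, hs⟩ : A)) : F) = s * (x - (r.val : F)) := by
      push_cast
      ring
    rw [h6, map_mul, hsv, one_mul] at h5
    exact h5
  have hsq : ∀ x ∈ W, ¬ W.valuation (x ^ 2 + 1) < 1 := by
    intro x hx hlt
    obtain ⟨r, hr⟩ := hres x hx
    have hx1 : W.valuation x ≤ 1 := (W.valuation_le_one_iff _).mpr hx
    have hr1 : W.valuation (r.val : F) ≤ 1 := (W.valuation_le_one_iff _).mpr (natCast_mem _ _)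
    have h4 : W.valuation ((x - (r.val : F)) * (x + (r.val : F))) < 1 := by
      rw [map_mul]
      have h7 : W.valuation (x + (r.val : F)) ≤ 1 := Valuation.map_add_le _ hx1 hr1
      calc W.valuation (x - (r.val : F)) * W.valuation (x + (r.val : F)) ≤ W.valuation (x - (r.val : F)) * 1 := by gcongr
        _ < 1 := by simpa using hr
    have h5 : W.valuation (((r.val : ℤ) ^ 2 + 1 : ℤ) : F) < 1 := by
      have e : (((r.val : ℤ) ^ 2 + 1 : ℤ) : F) = (x ^ 2 + 1) - ((x - (r.val : F)) * (x + (r.val : F))) := by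
        push_cast; ring
      rw [e]
      exact Valuation.map_sub_lt _ hlt h4
    have h6 : ¬ ((p : ℕ) : ℤ) ∣ ((r.val : ℤ) ^ 2 + 1) := by
      rw [← ZMod.intCast_zmod_eq_zero_iff_dvd]
      push_cast
      rw [ZMod.natCast_zmod_val]
      intro h
      have h7 : IsSquare (-1 : ZMod p) := ⟨r, by linear_combination -h⟩
      rw [ZMod.exists_sq_eq_neg_one_iff] at h7
      exact h7 hp4
    rw [not_dvd_val W hp h3 _ h6] at h5
    exact lt_irrefl _ h5
  have hmem : ∀ x y : F, x ^ 2 + y ^ 2 = 1 → x ∈ W := by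
    intro x y hxy
    by_contra hcon
    have hinv : x⁻¹ ∈ W := (W.mem_or_inv_mem _).resolve_left hcon
    have hx0 : x ≠ 0 := by rintro rfl; exact hcon (zero_mem W)
    have hinv1 : W.valuation x⁻¹ < 1 := by
      rw [← W.mem_nonunits_iff, W.inv_mem_nonunits_iff]
      exact Or.inr hcon
    have ht : (y / x) ^ 2 + 1 = x⁻¹ * x⁻¹ := by
      field_simp
      linear_combination hxy
    have htW : y / x ∈ W := by
      have h5 : (y / x) ^ 2 ∈ W := by
        have : (y / x) ^ 2 = x⁻¹ * x⁻¹ - 1 := by linear_combination ht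
        rw [this]; exact sub_mem (mul_mem hinv hinv) (one_mem _)
      refine mem_of_quad W (zero_mem _) (neg_mem h5) ?_
      ring
    apply hsq _ htW
    rw [ht, map_mul]
    calc W.valuation x⁻¹ * W.valuation x⁻¹ ≤ W.valuation x⁻¹ * 1 := by gcongr
      _ < 1 := by simpa using hinv1
  let WA : AddSubgroup F := W.toSubring.toAddSubgroup
  have hWA : ∀ x, x ∈ WA ↔ x ∈ W := fun x => Iff.rfl
  let rep : F → F := fun x => Quotient.out (QuotientAddGroup.mk x : F ⧸ WA)
  have hrep : ∀ x, x - rep x ∈ W := by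
    intro x
    have h : (QuotientAddGroup.mk (rep x) : F ⧸ WA) = QuotientAddGroup.mk x := Quotient.out_eq _
    have h' := QuotientAddGroup.eq.mp h
    rw [hWA] at h'
    have e : x - rep x = -rep x + x := by ring
    rw [e]; exact h'
  have hrepeq : ∀ x x', x - x' ∈ W → rep x = rep x' := by
    intro x x' hx
    have : (QuotientAddGroup.mk x : F ⧸ WA) = QuotientAddGroup.mk x' := by
      rw [QuotientAddGroup.eq, hWA]
      have e : -x + x' = -(x - x') := by ring
      rw [e]; exact neg_mem hx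
    simp only [rep, this]
  choose! res hres' using hres
  refine ⟨⟨fun u => (res (u.1 - rep u.1), res (u.2 - rep u.2)), ?_⟩⟩
  intro u q hpq
  have hadj : (u.1 - q.1) ^ 2 + (u.2 - q.2) ^ 2 = 1 := hpq
  have hx : u.1 - q.1 ∈ W := hmem _ _ hadj
  have hy : u.2 - q.2 ∈ W := hmem _ (u.1 - q.1) (by linear_combination hadj)
  have e1 := hrepeq _ _ hx
  have e2 := hrepeq _ _ hy
  have v1 := hres' _ (hrep u.1)
  have v2 := hres' _ (hrep u.2)
  have v3 := hres' _ (hrep q.1)
  have v4 := hres' _ (hrep q.2)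
  change (res (u.1 - rep u.1) - res (q.1 - rep q.1)) ^ 2 +
    (res (u.2 - rep u.2) - res (q.2 - rep q.2)) ^ 2 = 1
  set r1 := res (u.1 - rep u.1)
  set r2 := res (u.2 - rep u.2)
  set r3 := res (q.1 - rep q.1)
  set r4 := res (q.2 - rep q.2)
  set dx := u.1 - q.1 with hdx
  set dy := u.2 - q.2 with hdy
  have hmul : ∀ a b : F, W.valuation a < 1 → b ∈ W → W.valuation (a * b) < 1 := by
    intro a b ha hb
    have hb1 : W.valuation b ≤ 1 := (W.valuation_le_one_iff _).mpr hb
    rw [map_mul]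
    calc W.valuation a * W.valuation b ≤ W.valuation a * 1 := by gcongr
      _ < 1 := by simpa using ha
  have w1 : W.valuation (dx - ((r1.val : F) - r3.val)) < 1 := by
    have e : dx - ((r1.val : F) - r3.val) = (u.1 - rep u.1 - (r1.val : F)) -
        (q.1 - rep q.1 - (r3.val : F)) := by
      rw [hdx, e1]; ring
    rw [e]; exact Valuation.map_sub_lt _ v1 v3
  have w2 : W.valuation (dy - ((r2.val : F) - r4.val)) < 1 := by
    have e : dy - ((r2.val : F) - r4.val) = (u.2 - rep u.2 - (r2.val : F)) -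
        (q.2 - rep q.2 - (r4.val : F)) := by
      rw [hdy, e2]; ring
    rw [e]; exact Valuation.map_sub_lt _ v2 v4
  have w3 := hmul _ (dx + ((r1.val : F) - r3.val)) w1
    (add_mem hx (sub_mem (natCast_mem _ _) (natCast_mem _ _)))
  have w4 := hmul _ (dy + ((r2.val : F) - r4.val)) w2
    (add_mem hy (sub_mem (natCast_mem _ _) (natCast_mem _ _)))
  have w5 : W.valuation ((((r1.val : ℤ) - r3.val) ^ 2 + ((r2.val : ℤ) - r4.val) ^ 2 - 1 : ℤ) : F)
      < 1 := by
    have e : ((((r1.val : ℤ) - r3.val) ^ 2 + ((r2.val : ℤ) - r4.val) ^ 2 - 1 : ℤ) : F) =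
        -((dx - ((r1.val : F) - r3.val)) * (dx + ((r1.val : F) - r3.val)) +
          (dy - ((r2.val : F) - r4.val)) * (dy + ((r2.val : F) - r4.val))) := by
      push_cast
      linear_combination hadj
    rw [e, Valuation.map_neg]
    exact Valuation.map_add_lt _ w3 w4
  by_contra hne
  have hnd : ¬ ((p : ℕ) : ℤ) ∣ (((r1.val : ℤ) - r3.val) ^ 2 + ((r2.val : ℤ) - r4.val) ^ 2 - 1) := by
    rw [← ZMod.intCast_zmod_eq_zero_iff_dvd]
    push_cast
    rw [ZMod.natCast_zmod_val, ZMod.natCast_zmod_val, ZMod.natCast_zmod_val,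
      ZMod.natCast_zmod_val]
    intro h
    exact hne (by linear_combination h)
  rw [not_dvd_val W hp h3 _ hnd] at w5
  exact lt_irrefl _ w5

/-- the plane over `F_7` is 4-colourable -/
theorem seven : (circleGraph 7 (by norm_num)).Colorable 4 := by
  let f : ZMod 7 → Fin 4 := fun a => if a = 0 ∨ a = 3 then 0 else if a = 1 ∨ a = 4 then 1 else
    if a = 2 ∨ a = 5 then 2 else 3
  have key : ∀ a b : ZMod 7, a ^ 2 + b ^ 2 = 1 → ∀ s : ZMod 7, f (s + (a + 2 * b)) ≠ f s := by
    decide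
  refine ⟨SimpleGraph.Coloring.mk (fun u => f (u.1 + 2 * u.2)) ?_⟩
  intro u v huv h
  have h1 : (u.1 - v.1) ^ 2 + (u.2 - v.2) ^ 2 = 1 := huv
  apply key _ _ h1 (v.1 + 2 * v.2)
  rw [← h]
  congr 1
  ring

end Pool.Agent.K7.H14.CF.Redn
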