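import Pool.Agent.Results.MP_8b8716_co.ThreeValue

/-!
# Unit-distance graphs over real algebraic fields containing `√3`: statements

`unitDistGraph F` (starting file `ThreeValue`) is the unit-distance graph on `F × F`.
Target: for a real algebraic field `F` with `√3 ∈ F` the plane `F²` is 3-colourable iff the ring of
integers of `F` has a ring homomorphism onto the field with three elements.
-/

set_option autoImplicit false

namespace Pool.Agent.K7.H14.CF

open Pool.Agent.Results.MP_8b8716_co.ThreeValue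

/-- FF. A finite field of characteristic three in which `-1` is not a square, with two additive maps
to `F_3` whose sum does not vanish on the unit circle, is `F_3`. -/
def StFF : Prop :=
  ∀ (k : Type) [Field k] [Finite k], (3 : k) = 0 → ¬ IsSquare (-1 : k) →
    ∀ lam mu : k →+ ZMod 3, (∀ a b : k, a ^ 2 + b ^ 2 = 1 → lam a + mu b ≠ 0) → ∀ x : k, x ^ 3 = x

/-- ALG. The algebraic part. -/
def StAlg : Prop :=
  ∀ (B : Type) [CommRing B] [Nontrivial B], (3 : B) = 0 → ∀ (l : B →+ ZMod 3) (i : B), i ^ 2 = -1 →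
    ∀ G : Submonoid B, i ∈ G → (∀ g ∈ G, l g ≠ 0) → (∀ x, (∀ g ∈ G, l (x * g) = 0) → x = 0) →
      ∀ B0 : Subring B, (∀ t ∈ B0, ∃ g ∈ G, (1 - t * i) * g = 1 + t * i) →
        (∀ t ∈ B0, (Subring.closure {t} : Set B).Finite) → ∀ t ∈ B0, t ^ 3 = t

/-- the unit vectors of `F²` -/
def Unit2 (F : IntermediateField ℚ ℝ) : Set (F × F) := {e | e.1 ^ 2 + e.2 ^ 2 = 1}

/-- COL. A 3-colouring of `F²`, `√3 ∈ F`, gives an additive map on the group generated by the unit
vectors which does not vanish at unit vectors. -/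
def StCol : Prop :=
  ∀ F : IntermediateField ℚ ℝ, (∃ s : F, s ^ 2 = 3) → (unitDistGraph F).Colorable 3 →
    ∃ l : AddSubgroup.closure (Unit2 F) →+ ZMod 3,
      ∀ e : AddSubgroup.closure (Unit2 F), (e : F × F) ∈ Unit2 F → l e ≠ 0

/-- FOUR. If `√3 ∈ F` and the ring of integers of `F` has a homomorphism to `F_2`, then `F²` has a
4-colouring. -/
def StFour : Prop :=
  ∀ F : IntermediateField ℚ ℝ, Algebra.IsAlgebraic ℚ F → (∃ s : F, s ^ 2 = 3) →
    Nonempty (integralClosure ℤ F →+* ZMod 2) → (unitDistGraph F).Colorable 4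

/-- THREE. If `√3 ∈ F` and `F²` has a 3-colouring, then the ring of integers of `F` has a
homomorphism to `F_3`. -/
def StThree : Prop :=
  ∀ F : IntermediateField ℚ ℝ, Algebra.IsAlgebraic ℚ F → (∃ s : F, s ^ 2 = 3) →
    (unitDistGraph F).Colorable 3 → Nonempty (integralClosure ℤ F →+* ZMod 3)

end Pool.Agent.K7.H14.CF
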